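import Mathlib
import Pool.Agent.R436.ToParity

set_option autoImplicit false

/-!
# Parity of the coefficients of `T_o(q)`

`T_o(q) = ∑_{m ≥ 0} q^{2m} (-q; q)_{2m} / (q; q^2)_{m+1} = ∑ t_o(n) q^n`.

We prove that `t_o(n)` is even whenever `8 n + 9` is not of the form `x^2 + 2 y^2`.  The proof is in
`Pool.Agent.R436.ToParity`: modulo `2` one has
`T_o(q) = ∑_{n ≥ 0} ∑_{0 ≤ i ≤ 2n+1} q^{n^2 + 2n + i(i+1)/2}`.
-/

open Finset PowerSeries

namespace Pool.Agent.Results.MP_0c59fa_nt.ParityOfTo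

/-- The `m`-th summand `q^{2m} (-q; q)_{2m} / (q; q^2)_{m+1}` of `T_o(q)`, as a power series over `ℤ`
in the variable `q = X`.  Here `(-q; q)_{2m} = ∏_{k < 2m} (1 + q^{k+1})` and
`(q; q^2)_{m+1} = ∏_{k < m+1} (1 - q^{2k+1})`, which has constant coefficient `1`. -/
noncomputable def term (m : ℕ) : PowerSeries ℤ :=
  X ^ (2 * m) * (∏ k ∈ range (2 * m), (1 + X ^ (k + 1))) *
    invOfUnit (∏ k ∈ range (m + 1), (1 - X ^ (2 * k + 1))) 1

/-- The coefficient `t_o(n)` of `q^n` in `T_o(q) = ∑_{m ≥ 0} term m`.  The summand `term m` is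
divisible by `q^{2m}`, so that only the summands with `m ≤ n` contribute. -/
noncomputable def t (n : ℕ) : ℤ :=
  ∑ m ∈ range (n + 1), coeff n (term m)

/-- **The parity of `t_o(n)`.**  If `8 n + 9` is not of the form `x ^ 2 + 2 * y ^ 2` with integers
`x, y`, then `t_o(n)` is even. -/
theorem result (n : ℕ) (h : ¬ ∃ x y : ℤ, (8 * n + 9 : ℤ) = x ^ 2 + 2 * y ^ 2) : Even (t n) :=
  Pool.Agent.R436.ToParity.even_sum n h

end Pool.Agent.Results.MP_0c59fa_nt.ParityOfTo
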